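import Pool.Agent.H14.JnA

namespace Pool.Agent.Results.MP_3fb3e0_al.DepthFp
open Pool.Agent.H14.Wr Pool.Agent.H14.JnA

theorem result (k : ℕ) (hk : 1 ≤ k) (p : ℕ) (hp : p.Prime) (S : Finset (W (ZMod p) (Fin k → ℤ))) :
    ConjLe S fun n => (2 : ℝ) ^ (n ^ k) :=
  (both k hk).1 p hp S

end Pool.Agent.Results.MP_3fb3e0_al.DepthFp
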