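import Pool.Agent.H14.JnA

namespace Pool.Agent.Results.MP_3fb3e0_al.DepthZ
open Pool.Agent.H14.Wr Pool.Agent.H14.JnA

theorem result (k : ℕ) (hk : 1 ≤ k) (S : Finset (W ℤ (Fin k → ℤ))) :
    ConjLe S fun n => Real.log n ^ (n ^ (2 * k)) :=
  (both k hk).2 S

end Pool.Agent.Results.MP_3fb3e0_al.DepthZ
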